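import Pool.Agent.helper17.HH.SpecR

/-!
# Row `hh:RLO` (project HH, MP_07c750_an): the local bound
-/

open scoped Pointwise

set_option autoImplicit false

namespace Pool.Agent.HH

theorem RLO_class (h : RCV_stmt) (d R x0 : ℝ) (E D : Finset ℝ) (hd : 0 < d) (hdR : d ≤ R) (S : Finset ℤ) (hS : S ⊆ cel R E)
    (hsep : ∀ k ∈ S, ∀ k' ∈ S, k < k' → k + 6 ≤ k') : S.card * cov d (lc D x0 R) ≤ 2 * cov d (E + D) := by
  classical
  have hR : 0 < R := lt_of_lt_of_le hd hdR
  have hex : ∀ k ∈ S, ∃ x ∈ E, ⌊x / R⌋ = k := by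
    intro k hk
    have h1 := hS hk
    unfold cel at h1
    rw [Finset.mem_image] at h1
    exact h1
  choose! e he hek using hex
  have hsh : ∀ k, cov d (lc D x0 R) ≤ 2 * cov d ((lc D x0 R).image (fun y => y + e k)) := by
    intro k
    have h1 := h.sh d (-(e k)) ((lc D x0 R).image (fun y => y + e k))
    have h2 : ((lc D x0 R).image (fun y => y + e k)).image (fun y => y + -(e k)) = lc D x0 R := by
      rw [Finset.image_image]
      have h3 : ((fun y : ℝ => y + -(e k)) ∘ fun y => y + e k) = id := by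
        funext y
        simp
      rw [h3, Finset.image_id]
    rwa [h2] at h1
  -- the place of a point
  have hpl : ∀ k ∈ S, ∀ m ∈ cel d ((lc D x0 R).image (fun y => y + e k)), ∃ z : ℝ, ⌊z / d⌋ = m ∧ (k : ℝ) * R + x0 - R ≤ z ∧ z < ((k : ℝ) + 1) * R + x0 + R := by
    intro k hk m hm
    unfold cel at hm
    rw [Finset.mem_image] at hm
    obtain ⟨z, hz, hzm⟩ := hm
    rw [Finset.mem_image] at hz
    obtain ⟨y, hy, hyz⟩ := hz
    unfold lc at hy
    rw [Finset.mem_filter] at hy
    have h1 := abs_le.1 hy.2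
    have h2 := hek k hk
    rw [Int.floor_eq_iff] at h2
    have h3 : (k : ℝ) * R ≤ e k := by
      rw [← le_div_iff₀ hR]
      exact h2.1
    have h4 : e k < ((k : ℝ) + 1) * R := by
      rw [← div_lt_iff₀ hR]
      exact h2.2
    refine ⟨z, hzm, ?_, ?_⟩
    · linarith [h1.1, h1.2]
    · linarith [h1.1, h1.2]
  have hord : ∀ k ∈ S, ∀ k' ∈ S, k < k' → Disjoint (cel d ((lc D x0 R).image (fun y => y + e k))) (cel d ((lc D x0 R).image (fun y => y + e k'))) := by
    intro k hk k' hk' hkk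
    rw [Finset.disjoint_left]
    intro m hm hm'
    obtain ⟨z, hz1, hz2, hz3⟩ := hpl k hk m hm
    obtain ⟨z', hz1', hz2', hz3'⟩ := hpl k' hk' m hm'
    have h6 : ((k : ℝ) + 6) ≤ k' := by exact_mod_cast hsep k hk k' hk' hkk
    rw [Int.floor_eq_iff] at hz1 hz1'
    have h1 : (m : ℝ) * d ≤ z := by
      rw [← le_div_iff₀ hd]
      exact hz1.1
    have h2 : z' < ((m : ℝ) + 1) * d := by
      rw [← div_lt_iff₀ hd]
      exact hz1'.2
    have h3 := mul_le_mul_of_nonneg_right h6 hR.le
    linarith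
  have hdis : ∀ k ∈ S, ∀ k' ∈ S, k ≠ k' → Disjoint (cel d ((lc D x0 R).image (fun y => y + e k))) (cel d ((lc D x0 R).image (fun y => y + e k'))) := by
    intro k hk k' hk' hne
    rcases lt_or_gt_of_ne hne with h1 | h1
    · exact hord k hk k' hk' h1
    · exact (hord k' hk' k hk h1).symm
  have hsub : S.biUnion (fun k => cel d ((lc D x0 R).image (fun y => y + e k))) ⊆ cel d (E + D) := by
    intro m hm
    rw [Finset.mem_biUnion] at hm
    obtain ⟨k, hk, hm⟩ := hm
    unfold cel at hm ⊢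
    rw [Finset.mem_image] at hm ⊢
    obtain ⟨z, hz, hzm⟩ := hm
    rw [Finset.mem_image] at hz
    obtain ⟨y, hy, hyz⟩ := hz
    unfold lc at hy
    rw [Finset.mem_filter] at hy
    refine ⟨z, ?_, hzm⟩
    rw [← hyz, add_comm y]
    exact Finset.add_mem_add (he k hk) hy.1
  have hcard := Finset.card_le_card hsub
  rw [Finset.card_biUnion hdis] at hcard
  calc S.card * cov d (lc D x0 R) = ∑ _k ∈ S, cov d (lc D x0 R) := by rw [Finset.sum_const, smul_eq_mul]
    _ ≤ ∑ k ∈ S, 2 * cov d ((lc D x0 R).image (fun y => y + e k)) := Finset.sum_le_sum fun k _ => hsh k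
    _ = 2 * ∑ k ∈ S, (cel d ((lc D x0 R).image (fun y => y + e k))).card := by
      rw [Finset.mul_sum]
      rfl
    _ ≤ 2 * cov d (E + D) := Nat.mul_le_mul_left 2 hcard

theorem RLO_proof (h : RCV_stmt) : RLO_stmt := by
  classical
  refine ⟨12, by norm_num, fun d R x0 E D hd hdR => ?_⟩
  have h1 : ∀ c ∈ Finset.range 6, ((cel R E).filter fun k : ℤ => k % 6 = ((c : ℕ) : ℤ)).card * cov d (lc D x0 R) ≤ 2 * cov d (E + D) := by
    intro c _
    refine RLO_class h d R x0 E D hd hdR _ (Finset.filter_subset _ _) ?_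
    intro k hk k' hk' hlt
    rw [Finset.mem_filter] at hk hk'
    have h2 := hk.2
    have h3 := hk'.2
    omega
  have h2 : (cel R E).card = ∑ c ∈ Finset.range 6, ((cel R E).filter fun k : ℤ => k % 6 = ((c : ℕ) : ℤ)).card := by
    have h3 : ∀ k ∈ cel R E, (k % 6).toNat ∈ Finset.range 6 := by
      intro k _
      rw [Finset.mem_range]
      omega
    rw [Finset.card_eq_sum_card_fiberwise h3]
    refine Finset.sum_congr rfl fun c _ => ?_
    congr 1
    ext k
    simp only [Finset.mem_filter]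
    constructor
    · rintro ⟨h4, h5⟩
      exact ⟨h4, by omega⟩
    · rintro ⟨h4, h5⟩
      exact ⟨h4, by omega⟩
  have h3 : cov R E * cov d (lc D x0 R) ≤ 12 * cov d (E + D) := by
    unfold cov at h1 ⊢
    rw [h2, Finset.sum_mul]
    refine (Finset.sum_le_sum h1).trans ?_
    rw [Finset.sum_const, Finset.card_range, smul_eq_mul]
    omega
  have h4 : ((cov R E * cov d (lc D x0 R) : ℕ) : ℝ) ≤ ((12 * cov d (E + D) : ℕ) : ℝ) := by exact_mod_cast h3
  push_cast at h4
  linarith

end Pool.Agent.HH
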